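import Pool.Agent.Q206.Hyp.Sanity

/-!
# No structure vector `ξ_i` of a real hypersurface lies in a `(κ, μ, ν)_i`-nullity distribution

Let `m ≥ 3`. For no real hypersurface of `G₂(ℂ^{m+2})` or of `SU(2,m)/S(U(2)×U(m))`, and no local
section `J_q` of the unit sphere bundle of the quaternionic Kähler structure (in particular for no
member `J_i` of a local orthonormal frame `J₁, J₂, J₃`) does the vector field `ξ_q = -J_q N` lie in
a `(κ, μ, ν)`-nullity distribution. In fact at no point of a hypersurface is there a map `B` of the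
tangent space with `R(X, Y) ξ_q = η_q(Y) B X - η_q(X) B Y` for all tangent vectors `X`, `Y`.

The ambient spaces, hypersurfaces and their induced data are defined in `Pool.Agent.Q206.Hyp.Defs`.
-/

namespace Pool.Agent.Results.MP_061f3a_gt.NoNullityDistribution

open Pool.Agent.Q206.Hyp

/-- `ξ_q` lies in the `(κ, μ, ν)_q`-nullity distribution: at each point `u` and for all tangent
vectors (represented by vectors `X`, `Y` of the parameter space) `R(X, Y) ξ_q =
η_q(Y) (κ X + μ A X + ν φ_q A X) - η_q(X) (κ Y + μ A Y + ν φ_q A Y)`. -/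
def IsNullity {s : Space} {m : ℕ} (M : Hypersurface s m) (q : M.QuatSection)
    (κ μ ν : Rn m → ℝ) : Prop :=
  ∀ u ∈ M.U, ∀ X Y : Rn m, M.R X Y (M.ξq q) u =
    M.ηq q u Y • (κ u • M.d u X + μ u • M.A u X + ν u • M.φq q u (M.A u X))
      - M.ηq q u X • (κ u • M.d u Y + μ u • M.A u Y + ν u • M.φq q u (M.A u Y))

/-- Let `m ≥ 3`, let `M` be a real hypersurface of `G₂(ℂ^{m+2})` (`s = .compact`) or of
`SU(2,m)/S(U(2)×U(m))` (`s = .noncompact`), and let `J_q` be a local section of the unit sphere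
bundle of the quaternionic Kähler structure along `M`. Then `ξ_q = -J_q N` lies in no
`(κ, μ, ν)_q`-nullity distribution; moreover, at every point `u` and for every map `B`, the identity
`R(X, Y) ξ_q = η_q(Y) B X - η_q(X) B Y` fails for some `X`, `Y`. -/
theorem result {m : ℕ} (hm : 3 ≤ m) (s : Space) (M : Hypersurface s m) (q : M.QuatSection) :
    (¬ ∃ κ μ ν : Rn m → ℝ, IsNullity M q κ μ ν) ∧
    ∀ u ∈ M.U, ∀ B : Rn m → Mat m, ∃ X Y : Rn m,
      M.R X Y (M.ξq q) u ≠ M.ηq q u Y • B X - M.ηq q u X • B Y := by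
  have main : ∀ u ∈ M.U, ∀ B : Rn m → Mat m, ∃ X Y : Rn m,
      M.R X Y (M.ξq q) u ≠ M.ηq q u Y • B X - M.ηq q u X • B Y := by
    intro u hu B
    by_contra! h
    exact M.no_field hm hu (M.ξq_smooth q) (M.ξq_tan q) (M.ξq_orth q) (M.ξq_ne q hu)
      (fun e => M.ξq_ker q hu e) (M.ξq_tan q u hu) (fun e => M.ξq_ker q hu e) B h
  refine ⟨?_, main⟩
  rintro ⟨κ, μ, ν, h⟩
  obtain ⟨u, hu⟩ := M.connected.nonempty
  obtain ⟨X, Y, hXY⟩ := main u hu
    (fun X => κ u • M.d u X + μ u • M.A u X + ν u • M.φq q u (M.A u X))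
  exact hXY (h u hu X Y)

end Pool.Agent.Results.MP_061f3a_gt.NoNullityDistribution
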